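import Pool.Agent.W133.DQ.StB

/-!
# Structure of the roll-up stage
-/

set_option autoImplicit false

open scoped ContDiff
open Set Filter Topology

namespace Pool.Agent.W636.DQ

open Pool.Agent.W133.DQ

/-- displacement after `n` factors, with shifts `c, c + 1, ...` -/
noncomputable def Dn (u : P2 → ℝ) (c : ℝ) : ℕ → ℝ → ℝ → ℝ
  | 0, _, _ => 0
  | n + 1, x, y => Dn u c n x y + u (x + Dn u c n x y + c + n, y)

lemma Dn_congr (u : P2 → ℝ) (c c' : ℝ) (h : c = c') (n : ℕ) (x x' y : ℝ) (hx : x = x') :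
    Dn u c n x y = Dn u c' n x' y := by rw [h, hx]

lemma Dn_shift (u : P2 → ℝ) (c j : ℝ) (n : ℕ) (x y : ℝ) :
    Dn u c n (x + j) y = Dn u (c + j) n x y := by
  induction n with
  | zero => rfl
  | succ n ih =>
    simp only [Dn]
    rw [ih]
    congr 3
    ring

lemma Dn_add (u : P2 → ℝ) (c : ℝ) (a b : ℕ) (x y : ℝ) :
    Dn u c (a + b) x y = Dn u c a x y + Dn u (c + a) b (x + Dn u c a x y) y := by
  induction b with
  | zero => simp [Dn]
  | succ b ih =>
    rw [← add_assoc]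
    simp only [Dn]
    rw [ih]
    push_cast
    have e1 : x + (Dn u c a x y + Dn u (c + a) b (x + Dn u c a x y) y) + c + (a + b) =
      x + Dn u c a x y + Dn u (c + a) b (x + Dn u c a x y) y + (c + a) + b := by ring
    rw [e1]
    ring

lemma Dn_triv (u : P2 → ℝ) (c : ℝ) (n : ℕ) (x y : ℝ)
    (h : ∀ i : ℕ, i < n → u (x + c + i, y) = 0) : Dn u c n x y = 0 := by
  induction n with
  | zero => rfl
  | succ n ih =>
    simp only [Dn]
    rw [ih (fun i hi => h i (by omega)), add_zero, zero_add]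
    exact h n (by omega)

lemma Dn_zero (u : P2 → ℝ) (c : ℝ) (n : ℕ) (x y : ℝ)
    (h : ∀ z : ℝ, u (z, y) = 0) : Dn u c n x y = 0 :=
  Dn_triv u c n x y fun _ _ => h _

lemma Dn_bound (u : P2 → ℝ) (e : ℝ) (he : ∀ p, |u p| ≤ e) (c : ℝ) (n : ℕ) (x y : ℝ) :
    |Dn u c n x y| ≤ n * e := by
  induction n with
  | zero => simp [Dn]
  | succ n ih =>
    simp only [Dn]
    refine (abs_add_le _ _).trans ?_
    have := he (x + Dn u c n x y + c + n, y)
    push_cast
    linarith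

/-- the factors -/
noncomputable def wf (A : ℕ) (u : P2 → ℝ) (i : ℕ) (q : P2) : ℝ :=
  u (q.1 + ((i : ℝ) - A - 2), q.2)

lemma chain_Dn (A : ℕ) (u : P2 → ℝ) (m : ℕ) (p : P2) :
    chain (wf A u) m p = Dn u (-(A : ℝ) - 2) m p.1 p.2 := by
  induction m generalizing p with
  | zero => rfl
  | succ m ih =>
    simp only [chain, W133.DQ.star, Dn, wf]
    rw [ih]
    congr 3
    ring

section key

variable {A : ℕ} {u : P2 → ℝ} {e : ℝ}

lemma key1 (hu : ∀ p : P2, (A : ℝ) ≤ |p.1| → u p = 0) (he : ∀ p, |u p| ≤ e)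
    (hs : ((2 * A + 5 : ℕ) : ℝ) * e ≤ 1 / 4) (x y : ℝ) (h1 : -(1 / 2) < x) (h2 : x < 1 / 2) :
    Dn u (-(A : ℝ) - 2) (2 * A + 5) (x + 1) y = Dn u (-(A : ℝ) - 2) (2 * A + 5) x y := by
  have hA : (0 : ℝ) ≤ A := Nat.cast_nonneg A
  rw [Dn_shift]
  have e1 := Dn_add u (-(A : ℝ) - 2) 1 (2 * A + 5) x y
  have e2 : Dn u (-(A : ℝ) - 2) 1 x y = 0 := by
    apply Dn_triv
    intro i hi
    apply hu
    have : i = 0 := by omega
    subst this
    rw [abs_of_neg (by push_cast; linarith)]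
    push_cast
    linarith
  rw [e2, zero_add, add_zero, add_comm 1 (2 * A + 5)] at e1
  have e3 : Dn u (-(A : ℝ) - 2) (2 * A + 5 + 1) x y = Dn u (-(A : ℝ) - 2) (2 * A + 5) x y := by
    have hb := Dn_bound u e he (-(A : ℝ) - 2) (2 * A + 5) x y
    rw [abs_le] at hb
    conv_lhs => rw [Dn]
    rw [hu, add_zero]
    have : (A : ℝ) ≤ x + Dn u (-(A : ℝ) - 2) (2 * A + 5) x y + (-(A : ℝ) - 2) +
        ((2 * A + 5 : ℕ) : ℝ) := by
      push_cast at hb hs ⊢
      linarith [hb.1]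
    exact this.trans (le_abs_self _)
  rw [← e3, e1]
  exact Dn_congr _ _ _ (by push_cast; ring) _ _ _ _ rfl

lemma key2 (hu : ∀ p : P2, (A : ℝ) ≤ |p.1| → u p = 0) (he : ∀ p, |u p| ≤ e)
    (hs : ((2 * A + 5 : ℕ) : ℝ) * e ≤ 1 / 4) (x y : ℝ) (h1 : 0 ≤ x) (h2 : x < 1) (a b : ℕ) :
    Dn u (-(A : ℝ) - 2 - a) (a + (2 * A + 5) + b) x y = Dn u (-(A : ℝ) - 2) (2 * A + 5) x y := by
  have hA : (0 : ℝ) ≤ A := Nat.cast_nonneg A
  have ha : Dn u (-(A : ℝ) - 2 - a) a x y = 0 := by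
    apply Dn_triv
    intro i hi
    apply hu
    have h3 : (i : ℝ) + 1 ≤ a := by exact_mod_cast hi
    rw [abs_of_neg (by linarith)]
    linarith
  have hb := Dn_bound u e he (-(A : ℝ) - 2) (2 * A + 5) x y
  rw [abs_le] at hb
  rw [Dn_add, Dn_add, ha, zero_add, add_zero]
  have e1 : Dn u (-(A : ℝ) - 2 - a + a) (2 * A + 5) x y =
      Dn u (-(A : ℝ) - 2) (2 * A + 5) x y := Dn_congr _ _ _ (by ring) _ _ _ _ rfl
  rw [e1]
  have e2 : Dn u (-(A : ℝ) - 2 - a + ((a + (2 * A + 5) : ℕ) : ℝ)) b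
      (x + Dn u (-(A : ℝ) - 2) (2 * A + 5) x y) y = 0 := by
    apply Dn_triv
    intro i hi
    apply hu
    have h3 : (0 : ℝ) ≤ i := Nat.cast_nonneg i
    have : (A : ℝ) ≤ x + Dn u (-(A : ℝ) - 2) (2 * A + 5) x y +
        (-(A : ℝ) - 2 - a + ((a + (2 * A + 5) : ℕ) : ℝ)) + i := by
      push_cast at hb hs ⊢
      linarith [hb.1]
    exact this.trans (le_abs_self _)
  rw [e2, add_zero]

end key

lemma pow_PT (P : Equiv.Perm P2) (u : P2 → ℝ) (hP : IsG P u) (N : ℕ) (x y : ℝ) :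
    ((P * tr (1, 0)) ^ N) (x, y) = (x + N + Dn u 1 N x y, y) := by
  induction N with
  | zero => simp [Dn]
  | succ N ih =>
    rw [pow_succ', Equiv.Perm.mul_apply, ih, Equiv.Perm.mul_apply, tr_apply, hP]
    simp only [Dn, Prod.mk_add_mk, add_zero]
    have : x + N + Dn u 1 N x y + 1 = x + Dn u 1 N x y + 1 + N := by ring
    rw [this]
    push_cast
    refine Prod.ext ?_ rfl
    show x + Dn u 1 N x y + 1 + N + u (x + Dn u 1 N x y + 1 + N, y) =
      x + (N + 1) + (Dn u 1 N x y + u (x + Dn u 1 N x y + 1 + N, y))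
    ring

lemma dil_smooth (A : ℝ) (v : P2 → ℝ) (hv : ContDiff ℝ ∞ v) : ContDiff ℝ ∞ (dil A v) := by
  unfold dil
  exact contDiff_const.mul (hv.comp ((contDiff_fst.div_const A).prodMk (contDiff_snd.div_const A)))

lemma dil_fderiv (A : ℝ) (hA : 0 < A) (v : P2 → ℝ) (hv : ContDiff ℝ ∞ v) (p : P2) :
    fderiv ℝ (dil A v) p = fderiv ℝ v (p.1 / A, p.2 / A) := by
  have h1 : dil A v = fun p : P2 => A * v (A⁻¹ • p) := by
    funext p
    unfold dil
    congr 2
    exact Prod.ext (by simp [div_eq_inv_mul]) (by simp [div_eq_inv_mul])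
  have h2 : (p.1 / A, p.2 / A) = A⁻¹ • p := Prod.ext (by simp [div_eq_inv_mul]) (by simp [div_eq_inv_mul])
  rw [h1, h2]
  have hd : HasFDerivAt v (fderiv ℝ v (A⁻¹ • p)) (A⁻¹ • p) :=
    (hv.differentiable (by simp)).differentiableAt.hasFDerivAt
  have hl : HasFDerivAt (fun p : P2 => A⁻¹ • p) (A⁻¹ • ContinuousLinearMap.id ℝ P2) p :=
    (hasFDerivAt_id p).const_smul A⁻¹
  have := (hd.comp p hl).const_mul A
  refine HasFDerivAt.fderiv this |>.trans ?_
  ext <;> simp [hA.ne']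

lemma nb1 (f : P2 → ℝ) (b : ℝ) : NB 1 f b ↔ ∀ p, ‖fderiv ℝ f p‖ ≤ b := by
  unfold NB
  simp only [norm_iteratedFDeriv_one]

theorem r0 (hCH0 : S_CH0) (hPOIN : S_POIN) (hGU : S_GU) : S_R0 := by
  intro A hA
  obtain ⟨δ0, hδ0, hch⟩ := hCH0 (2 * A + 5)
  have hA1 : (1 : ℝ) ≤ A := by exact_mod_cast hA
  have hA0 : (0 : ℝ) < A := by linarith
  set M : ℝ := ((2 * A + 5 : ℕ) : ℝ) with hM
  have hM0 : (1 : ℝ) ≤ M := by
    rw [hM]; push_cast; linarith
  have hMA : 0 < M * A := by positivity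
  refine ⟨min δ0 (1 / (8 * (M * A))), 2 * (M * A), lt_min hδ0 (by positivity), by positivity, ?_⟩
  intro v hv hsupp d hd hdδ hnb
  have hd1 : d ≤ δ0 := hdδ.trans (min_le_left _ _)
  have hd2 : M * A * d ≤ 1 / 8 := by
    have h1 : d ≤ 1 / (8 * (M * A)) := hdδ.trans (min_le_right _ _)
    have h2 : M * A * d ≤ M * A * (1 / (8 * (M * A))) := mul_le_mul_of_nonneg_left h1 hMA.le
    have h3 : M * A * (1 / (8 * (M * A))) = 1 / 8 := by field_simp
    linarith
  have hMA1 : 1 ≤ M * A := by nlinarith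
  have hdle : d ≤ 1 / 8 := by nlinarith
  set u : P2 → ℝ := dil A v with hu
  have hus : ContDiff ℝ ∞ u := dil_smooth A v hv
  have hub : SuppBox A A u := by
    intro p hp
    rw [hu]
    unfold dil
    rw [hsupp, mul_zero]
    rcases hp with h | h
    · left
      show 1 ≤ |p.1 / A|
      rw [abs_div, abs_of_pos hA0, le_div_iff₀ hA0, one_mul]
      exact h
    · right
      show 1 ≤ |p.2 / A|
      rw [abs_div, abs_of_pos hA0, le_div_iff₀ hA0, one_mul]
      exact h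
  have hv0 : ∀ p, |v p| ≤ 2 * d := by
    intro p
    have := hPOIN.1 v 1 0 d hv hsupp (by simpa using hnb) p
    rw [norm_iteratedFDeriv_zero] at this
    simpa using this
  have hu0 : ∀ p, |u p| ≤ 2 * A * d := by
    intro p
    rw [hu]
    unfold dil
    rw [abs_mul, abs_of_pos hA0]
    have := mul_le_mul_of_nonneg_left (hv0 (p.1 / A, p.2 / A)) hA0.le
    linarith
  have hu1 : NB 1 u d := by
    rw [nb1]
    intro p
    rw [hu, dil_fderiv A hA0 v hv]
    exact (nb1 v d).1 hnb _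
  have hux : ∀ p : P2, (A : ℝ) ≤ |p.1| → u p = 0 := fun p h => hub p (Or.inl h)
  have huy : ∀ p : P2, (A : ℝ) ≤ |p.2| → u p = 0 := fun p h => hub p (Or.inr h)
  have hs : M * (2 * A * d) ≤ 1 / 4 := by nlinarith
  set w : ℕ → P2 → ℝ := wf A u with hw
  have hwt : ∀ i, w i = fun q : P2 => u (q + ((i : ℝ) - A - 2, 0)) := by
    intro i
    funext q
    rw [hw]
    unfold wf
    congr 1
    exact Prod.ext (by simp) (by simp)
  have hws : ∀ i, ContDiff ℝ ∞ (w i) := by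
    intro i
    rw [hwt]
    exact hus.comp (contDiff_id.add contDiff_const)
  have hw1 : ∀ i, NB 1 (w i) d := by
    intro i p
    rw [hwt, iteratedFDeriv_comp_add_right]
    exact hu1 _
  have hw0 : ∀ i p, |w i p| ≤ 2 * A * d := by
    intro i p
    rw [hwt]
    exact hu0 _
  obtain ⟨hG, hGb, hG1, -⟩ := hch w w hws hws
  set G : P2 → ℝ := chain w (2 * A + 5) with hGdef
  have hGD : ∀ p, G p = Dn u (-(A : ℝ) - 2) (2 * A + 5) p.1 p.2 := fun p => chain_Dn A u _ p
  have hSR : ∀ p, SR A v p = G (Int.fract p.1, p.2) := fun p => rfl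
  have hGn : ∀ p, |G p| ≤ 2 * (M * A) * d := by
    intro p
    have := hGb (2 * A * d) (fun i _ p => hw0 i p) p
    refine this.trans (le_of_eq ?_)
    ring
  have hG1' : NB 1 G (2 * (M * A) * d) := by
    intro p
    have := hG1 d hd hd1 (fun i _ => hw1 i) p
    refine this.trans ?_
    nlinarith [mul_nonneg (mul_nonneg (by linarith : (0:ℝ) ≤ M) hd) (by linarith : (0:ℝ) ≤ A - 1)]
  have hper : ∀ x y : ℝ, -(1 / 2) < x → x < 3 / 2 → G (Int.fract x, y) = G (x, y) := by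
    intro x y h1 h2
    by_cases h3 : x < 0
    · have e1 : Int.fract x = x + 1 := by
        rw [Int.fract_eq_iff]
        refine ⟨by linarith, by linarith, -1, by push_cast; ring⟩
      rw [e1, hGD, hGD]
      exact key1 hux hu0 hs x y h1 (by linarith)
    · by_cases h4 : x < 1
      · rw [Int.fract_eq_self.2 ⟨by linarith, h4⟩]
      · have e1 : Int.fract x = x - 1 := by
          rw [Int.fract_eq_iff]
          refine ⟨by linarith, by linarith, 1, by push_cast; ring⟩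
        rw [e1, hGD, hGD]
        have := key1 hux hu0 hs (x - 1) y (by linarith) (by linarith)
        rw [sub_add_cancel] at this
        exact this.symm
  have hloc : ∀ p : P2, SR A v =ᶠ[𝓝 p] fun q => G (q - (((⌊p.1⌋ : ℤ) : ℝ), 0)) := by
    intro p
    have hopen : {q : P2 | ((⌊p.1⌋ : ℤ) : ℝ) - 1 / 2 < q.1 ∧ q.1 < ((⌊p.1⌋ : ℤ) : ℝ) + 3 / 2} ∈
        𝓝 p := by
      apply IsOpen.mem_nhds
      · exact (isOpen_lt continuous_const continuous_fst).inter
          (isOpen_lt continuous_fst continuous_const)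
      · have h1 := Int.floor_le p.1
        have h2 := Int.lt_floor_add_one p.1
        exact ⟨by linarith, by linarith⟩
    filter_upwards [hopen] with q hq
    rw [hSR]
    have e1 : Int.fract q.1 = Int.fract (q.1 - ((⌊p.1⌋ : ℤ) : ℝ)) := by
      rw [Int.fract_sub_intCast]
    rw [e1, hper _ _ (by linarith [hq.1]) (by linarith [hq.2])]
    congr 1
    exact Prod.ext (by simp) (by simp)
  refine ⟨?_, ?_, ?_, ?_, ?_, ?_⟩
  · rw [contDiff_iff_contDiffAt]
    intro p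
    refine ContDiffAt.congr_of_eventuallyEq ?_ (hloc p)
    exact (hG.comp (contDiff_id.sub contDiff_const)).contDiffAt
  · intro p
    rw [hSR, hSR]
    simp only [Int.fract_add_one]
  · intro p hp
    rw [hSR, hGD]
    exact Dn_zero _ _ _ _ _ fun z => huy _ hp
  · intro p
    rw [hSR]
    exact hGn _
  · rw [nb1]
    intro p
    rw [(hloc p).fderiv_eq, fderiv_comp_sub]
    exact (nb1 G _).1 hG1' _
  · have hhalf : NB 1 u (1 / 2) := fun p => (hu1 p).trans (by linarith)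
    obtain ⟨P, hP, hPG⟩ := hGU u hus ⟨A, A, hub⟩ hhalf
    refine ⟨P, hP, hPG, ?_, ?_, ?_⟩
    · intro p
      rw [hPG p]
      simp only [add_sub_cancel_left]
      refine (hu0 p).trans ?_
      nlinarith
    · intro p
      refine Prod.ext ?_ rfl
      simp only [hSR, Int.fract_add_one]
      ring
    · refine ⟨A + 6, ?_⟩
      intro p hp m n hm hn
      rw [pow_PT P u hPG]
      refine Prod.ext ?_ rfl
      show p.1 - m + ((m + n : ℕ) : ℝ) + Dn u 1 (m + n) (p.1 - m) p.2 = p.1 + SR A v p + n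
      rw [hSR, hGD]
      rw [abs_le] at hp
      have f1 : (-2 : ℤ) ≤ ⌊p.1⌋ := Int.le_floor.2 (by push_cast; exact hp.1)
      have f2 : ⌊p.1⌋ ≤ (2 : ℤ) := by
        have : ⌊p.1⌋ < (3 : ℤ) := Int.floor_lt.2 (by push_cast; linarith [hp.2])
        omega
      obtain ⟨a, ha⟩ : ∃ a : ℕ, (a : ℤ) = m - ⌊p.1⌋ - A - 3 :=
        ⟨((m : ℤ) - ⌊p.1⌋ - A - 3).toNat, Int.toNat_of_nonneg (by omega)⟩
      obtain ⟨b, hb⟩ : ∃ b : ℕ, (b : ℤ) = n + ⌊p.1⌋ - A - 2 :=
        ⟨((n : ℤ) + ⌊p.1⌋ - A - 2).toNat, Int.toNat_of_nonneg (by omega)⟩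
      have hmn : m + n = a + (2 * A + 5) + b := by omega
      have hk := key2 hux hu0 hs (Int.fract p.1) p.2 (Int.fract_nonneg _) (Int.fract_lt_one _) a b
      have haR : (a : ℝ) = m - (⌊p.1⌋ : ℤ) - A - 3 := by exact_mod_cast ha
      have e1 : Dn u 1 (m + n) (p.1 - m) p.2 =
          Dn u (-(A : ℝ) - 2 - a) (a + (2 * A + 5) + b) (Int.fract p.1) p.2 := by
        have e2 : p.1 - m = Int.fract p.1 + (((⌊p.1⌋ : ℤ) : ℝ) - m) := by
          rw [← Int.self_sub_floor]; ring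
        rw [e2, Dn_shift, hmn]
        exact Dn_congr _ _ _ (by rw [haR]; ring) _ _ _ _ rfl
      rw [e1, hk]
      push_cast
      ring

end Pool.Agent.W636.DQ
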